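import Pool.Agent.H21.AffineBarrier

set_option autoImplicit false

/-!
# The zeros of all Dirichlet L-functions do not decide whether `4 p + 1` is prime infinitely often

Let `f(p)` tend to infinity, as slowly as one wishes.  Every prime `p` is moved by at most `f(p)`, injectively, such
that for each `q` the residue modulo `q` changes for finitely many primes only.  The new primes can be chosen such
that no affine relation `a x + c = b y` (`a, b ≥ 1`, `c ≠ 0` integers) has infinitely many solutions in new primes
`x, y`; for `a = 4`, `b = c = 1` this is the negation of the assertion of the problem, for `a = 4 ^ k`, `b = 1` and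
`c = (4 ^ k - 1) / 3` it says that the `k`-th iterate of `x ↦ 4 x + 1` is a new prime for finitely many new primes
`x` only, for every `k ≥ 1`, while infinitely many true primes have an iterate with a bounded `k ≥ 1` which is a prime
(Maynard and Tao).  Nevertheless, for every Dirichlet character the Euler product over the new primes is the
Dirichlet L-function times a factor which is holomorphic and without zeros in the half plane `Re s > 0`: all zeros
and poles with `Re s > 0` are the same.

Proof.  The new primes of `Pool.Agent.H67.BB.template` beyond a bound `X j` are in the Bohr set of the integers `m`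
for which the fractional part of `m √2` is less than `1 / (j + 1)`.  Two elements `x, y` of this set with
`a x + c = b y` would give `‖c √2‖ ≤ (a + b) / (j + 1)`.
-/

namespace Pool.Agent.Results.MP_3df474_nt.ZerosDoNotDecide

open Filter Topology

/-- Let `f ≥ 0` tend to infinity.  There is a map `φ` on the primes with values `≥ 2` such that
(1) `φ` is injective on the primes, `|φ p - p| ≤ f p` for all primes `p`, and for every `q ≥ 1`: `φ p ≡ p` modulo `q`
for all but finitely many primes `p`;
(2) for every Dirichlet character `χ` the Euler product over the `φ p` is `L(s, χ) G(s)` for `Re s > 1`, where `G` is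
holomorphic and without zeros in `Re s > 0`;
(3) for all integers `a, b ≥ 1` and `c ≠ 0` only finitely many pairs `(x, y)` of elements of the set of the values
`φ p` satisfy `a x + c = b y`. -/
theorem result (f : ℕ → ℝ) (hf0 : ∀ n, 0 ≤ f n) (hf : Tendsto f atTop atTop) : ∃ φ : ℕ → ℕ,
    (Set.InjOn φ {p | p.Prime} ∧ (∀ p : ℕ, p.Prime → 2 ≤ φ p) ∧ (∀ p : ℕ, p.Prime → |(φ p : ℝ) - p| ≤ f p) ∧
      ∀ q : ℕ, 0 < q → {p : ℕ | p.Prime ∧ ¬ φ p ≡ p [MOD q]}.Finite) ∧
    (∀ (q : ℕ) [NeZero q] (χ : DirichletCharacter ℂ q), ∃ G : ℂ → ℂ,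
      DifferentiableOn ℂ G {s : ℂ | 0 < s.re} ∧ (∀ s : ℂ, 0 < s.re → G s ≠ 0) ∧
      ∀ s : ℂ, 1 < s.re → HasProd (fun p : Nat.Primes => (1 - χ (φ p) * (φ p : ℂ) ^ (-s))⁻¹)
        (χ.LFunction s * G s)) ∧
    ∀ (a b : ℕ) (c : ℤ), 1 ≤ a → 1 ≤ b → c ≠ 0 →
      {z : ℕ × ℕ | z.1 ∈ φ '' {p | p.Prime} ∧ z.2 ∈ φ '' {p | p.Prime} ∧ (a : ℤ) * z.1 + c = b * z.2}.Finite := by
  obtain ⟨φ, X, -, O⟩ := Pool.Agent.H67.BB.template Pool.Agent.H67.BB.TT Pool.Agent.H67.BB.TT_syn f hf0 hf
    (fun j x => 3 ^ (j * x))
  exact ⟨φ, ⟨O.inj, O.move.two, O.dispf, O.move.fin⟩, fun q _ χ => Pool.Agent.H67.BB.euler2 O.move q χ,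
    fun a b c ha hb hc => Pool.Agent.H21.affine_finite O a b c ha hb hc⟩

end Pool.Agent.Results.MP_3df474_nt.ZerosDoNotDecide
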